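import Pool.Agent.Helper6.NX.GoalsC
import Pool.Agent.Helper6.GP.LZW
import Pool.Agent.Helper56.GP.TGR
import Pool.Agent.Helper61.GP.ENT
import Pool.Agent.Helper6.W.Law

/-!
# NX, goal WW: the law of the lazy steps has the mixing properties of CORE
-/

set_option linter.unusedVariables false

namespace Pool.Agent.Helper5.NX

open Matrix Equiv Filter Topology Pool.Agent.Helper15.An Pool.Agent.Helper6.NX
open scoped ComplexOrder
open Pool.Agent.Helper3.AK (lazyLaw)
open Pool.Agent.Helper6.W (lazy_pow_le)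

variable {n k : ℕ}

/-- the lazy step on the right -/
noncomputable def Rt (z : Fin k → Alt n) (f : Perm (Fin n) → ℝ) (g : Perm (Fin n)) : ℝ :=
  (1 / 2) * f g + (4 * (k : ℝ))⁻¹ *
      ∑ i, (f (g * (z i : Perm (Fin n))⁻¹) + f (g * (z i : Perm (Fin n))))

/-- the lazy step on the left -/
noncomputable def Lf (z : Fin k → Alt n) (f : Perm (Fin n) → ℝ) (g : Perm (Fin n)) : ℝ :=
  (1 / 2) * f g + (4 * (k : ℝ))⁻¹ *
      ∑ i, (f ((z i : Perm (Fin n))⁻¹ * g) + f ((z i : Perm (Fin n)) * g))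

theorem Lf_Rt (z : Fin k → Alt n) (f : Perm (Fin n) → ℝ) (g : Perm (Fin n)) :
    Lf z (Rt z f) g = Rt z (Lf z f) g := by
  have c1 : ∑ i, ∑ j, f ((z i : Perm (Fin n))⁻¹ * (g * (z j : Perm (Fin n))⁻¹)) =
      ∑ j, ∑ i, f ((z i : Perm (Fin n))⁻¹ * (g * (z j : Perm (Fin n))⁻¹)) := Finset.sum_comm
  have c2 : ∑ i, ∑ j, f ((z i : Perm (Fin n))⁻¹ * (g * (z j : Perm (Fin n)))) =
      ∑ j, ∑ i, f ((z i : Perm (Fin n))⁻¹ * (g * (z j : Perm (Fin n)))) := Finset.sum_comm
  have c3 : ∑ i, ∑ j, f ((z i : Perm (Fin n)) * (g * (z j : Perm (Fin n))⁻¹)) =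
      ∑ j, ∑ i, f ((z i : Perm (Fin n)) * (g * (z j : Perm (Fin n))⁻¹)) := Finset.sum_comm
  have c4 : ∑ i, ∑ j, f ((z i : Perm (Fin n)) * (g * (z j : Perm (Fin n)))) =
      ∑ j, ∑ i, f ((z i : Perm (Fin n)) * (g * (z j : Perm (Fin n)))) := Finset.sum_comm
  simp only [Lf, Rt, Finset.sum_add_distrib, ← Finset.mul_sum, mul_assoc]
  rw [c1, c2, c3, c4]
  ring

theorem lazy_succ (z : Fin k → Alt n) (m : ℕ) : lazyLaw z (m + 1) = Rt z (lazyLaw z m) := rfl

/-- the recursion on the left -/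
theorem lazy_left (z : Fin k → Alt n) (m : ℕ) : lazyLaw z (m + 1) = Lf z (lazyLaw z m) := by
  induction m with
  | zero =>
    rw [lazy_succ]
    funext g
    have h0 : ∀ h : Perm (Fin n), lazyLaw z 0 h = if h = 1 then 1 else 0 := fun _ => rfl
    unfold Rt Lf
    congr 2
    refine Finset.sum_congr rfl fun i _ => ?_
    simp only [h0]
    congr 1
    · congr 1
      rw [eq_iff_iff]
      constructor
      · intro h
        rw [mul_inv_eq_one] at h
        rw [h, inv_mul_cancel]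
      · intro h
        rw [inv_mul_eq_one] at h
        rw [h, mul_inv_cancel]
    · congr 1
      rw [eq_iff_iff]
      constructor
      · intro h
        exact mul_eq_one_comm.1 h
      · intro h
        exact mul_eq_one_comm.1 h
  | succ m ih =>
    rw [lazy_succ]
    conv_lhs => rw [ih]
    conv_rhs => rw [lazy_succ]
    funext g
    exact (Lf_Rt z _ g).symm

theorem lazy_symm (z : Fin k → Alt n) (m : ℕ) (g : Perm (Fin n)) :
    lazyLaw z m g⁻¹ = lazyLaw z m g := by
  induction m generalizing g with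
  | zero =>
    have h0 : ∀ h : Perm (Fin n), lazyLaw z 0 h = if h = 1 then 1 else 0 := fun _ => rfl
    simp only [h0, inv_eq_one]
  | succ m ih =>
    have h1 : lazyLaw z (m + 1) g = Lf z (lazyLaw z m) g := by rw [lazy_left]
    rw [h1, lazy_succ]
    unfold Rt Lf
    rw [ih]
    congr 2
    refine Finset.sum_congr rfl fun i _ => ?_
    rw [← ih ((z i : Perm (Fin n))⁻¹ * g), ← ih ((z i : Perm (Fin n)) * g), _root_.mul_inv_rev,
      _root_.mul_inv_rev, inv_inv, add_comm]

/-- near invariance under the words of the lazy walk -/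
theorem near (hk : 1 ≤ k) (z : Fin k → Alt n) (ν : Perm (Fin n) → ℝ) (θ : ℝ)
    (hν : NI (cX z) ν θ) (m : ℕ) : ∀ w, 0 < lazyLaw z m w →
      ∑ g, |ν (g * w⁻¹) - ν g| ≤ (m : ℝ) * θ := by
  have hθ : 0 ≤ θ := le_trans (Finset.sum_nonneg fun g _ => abs_nonneg _) (hν ⟨0, hk⟩)
  induction m with
  | zero =>
    intro w hw
    have h0 : lazyLaw z 0 w = if w = 1 then 1 else 0 := rfl
    rw [h0] at hw
    split_ifs at hw with h
    · subst h
      simp
    · exact absurd hw (lt_irrefl _)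
  | succ m ih =>
    intro w hw
    rw [lazy_succ] at hw
    have hnn := Pool.Agent.Helper60.AK.LZ.lazy_nonneg z m
    have hcase : 0 < lazyLaw z m w ∨ ∃ i, 0 < lazyLaw z m (w * (z i : Perm (Fin n))⁻¹) ∨
        0 < lazyLaw z m (w * (z i : Perm (Fin n))) := by
      by_contra hcon
      push Not at hcon
      obtain ⟨h1, h2⟩ := hcon
      have h3 : Rt z (lazyLaw z m) w = 0 := by
        unfold Rt
        rw [le_antisymm h1 (hnn _), Finset.sum_eq_zero, mul_zero, mul_zero, add_zero]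
        intro i _
        rw [le_antisymm (h2 i).1 (hnn _), le_antisymm (h2 i).2 (hnn _), add_zero]
      rw [h3] at hw
      exact lt_irrefl _ hw
    push_cast
    rcases hcase with h | ⟨i, h | h⟩
    · have := ih w h
      linarith
    · have h1 := ih _ h
      have h2 := hν i
      have h3 : ∑ g, |ν (g * w⁻¹) - ν (g * (cX z i)⁻¹)| ≤ (m : ℝ) * θ := by
        refine le_trans (le_of_eq ?_) h1
        rw [← Equiv.sum_comp (Equiv.mulRight (cX z i)) (fun g => |ν (g * w⁻¹) - ν (g * (cX z i)⁻¹)|)]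
        refine Finset.sum_congr rfl fun g _ => ?_
        simp only [Equiv.coe_mulRight, mul_inv_cancel_right]
        rw [_root_.mul_inv_rev, inv_inv, ← mul_assoc]
        rfl
      calc ∑ g, |ν (g * w⁻¹) - ν g|
          ≤ ∑ g, (|ν (g * w⁻¹) - ν (g * (cX z i)⁻¹)| + |ν (g * (cX z i)⁻¹) - ν g|) :=
            Finset.sum_le_sum fun g _ => abs_sub_le _ _ _
        _ ≤ (m : ℝ) * θ + θ := by
            rw [Finset.sum_add_distrib]
            exact add_le_add h3 h2
        _ = _ := by ring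
    · have h1 := ih _ h
      have h2 : ∑ g, |ν (g * cX z i) - ν g| ≤ θ := by
        refine le_trans (le_of_eq ?_) (hν i)
        rw [← Equiv.sum_comp (Equiv.mulRight (cX z i)⁻¹) (fun g => |ν (g * cX z i) - ν g|)]
        refine Finset.sum_congr rfl fun g _ => ?_
        simp only [Equiv.coe_mulRight, inv_mul_cancel_right]
        exact abs_sub_comm _ _
      have h3 : ∑ g, |ν (g * w⁻¹) - ν (g * cX z i)| ≤ (m : ℝ) * θ := by
        refine le_trans (le_of_eq ?_) h1
        rw [← Equiv.sum_comp (Equiv.mulRight (cX z i)⁻¹) (fun g => |ν (g * w⁻¹) - ν (g * cX z i)|)]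
        refine Finset.sum_congr rfl fun g _ => ?_
        simp only [Equiv.coe_mulRight, inv_mul_cancel_right]
        rw [_root_.mul_inv_rev, ← mul_assoc]
        rfl
      calc ∑ g, |ν (g * w⁻¹) - ν g|
          ≤ ∑ g, (|ν (g * w⁻¹) - ν (g * cX z i)| + |ν (g * cX z i) - ν g|) :=
            Finset.sum_le_sum fun g _ => abs_sub_le _ _ _
        _ ≤ (m : ℝ) * θ + θ := by
            rw [Finset.sum_add_distrib]
            exact add_le_add h3 h2
        _ = _ := by ring

/-- the numbers -/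
theorem numbers (α ε δ : ℝ) (hα : 1 / 2 < α) (hε : 0 < ε) (hδ : 0 < δ) (hδα : 2 * δ < α) :
    ∀ᶠ n : ℕ in atTop, 20 * (n : ℝ) ^ δ ≤ (n : ℝ) ^ α ∧ 40 * Real.log n ≤ ε * (n : ℝ) ^ δ ∧
      4 ≤ n := by
  have h1 : Tendsto (fun n : ℕ => (n : ℝ) ^ (α - δ)) atTop atTop :=
    (tendsto_rpow_atTop (by linarith)).comp tendsto_natCast_atTop_atTop
  have h2 : ∀ᶠ n : ℕ in atTop, Real.log n ≤ ε / 40 * (n : ℝ) ^ δ := by
    have h3 := (isLittleO_log_rpow_atTop hδ).bound (show (0 : ℝ) < ε / 40 by positivity)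
    have h4 := tendsto_natCast_atTop_atTop (R := ℝ) |>.eventually h3
    filter_upwards [h4, eventually_ge_atTop 1] with n hn h1n
    have h5 : (1 : ℝ) ≤ n := by exact_mod_cast h1n
    rw [Real.norm_of_nonneg (Real.log_nonneg h5), Real.norm_of_nonneg (by positivity)] at hn
    exact hn
  filter_upwards [h1.eventually_ge_atTop 20, h2, eventually_ge_atTop 4] with n h3 h4 h5
  have hn : (0 : ℝ) < n := by
    have : 0 < n := by omega
    exact_mod_cast this
  refine ⟨?_, by linarith, h5⟩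
  have h6 : (n : ℝ) ^ α = (n : ℝ) ^ (α - δ) * (n : ℝ) ^ δ := by
    rw [← Real.rpow_add hn]
    congr 1
    ring
  rw [h6]
  exact mul_le_mul_of_nonneg_right h3 (by positivity)

theorem thmWW : S_WW := by
  intro k α ε δ hk hα hα1 hε hε1 hδ hδα
  filter_upwards [numbers α ε δ hα hε hδ hδα] with n ⟨hn1, hn2, hn4⟩ x hgap
  set l : ℕ := ⌈(n : ℝ) ^ (2 * δ)⌉₊ with hl
  have hn0 : (0 : ℝ) < n := by
    have : 0 < n := by omega
    exact_mod_cast this
  have hn1' : (1 : ℝ) ≤ n := by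
    have : 1 ≤ n := by omega
    exact_mod_cast this
  have hn4' : (4 : ℝ) ≤ n := by exact_mod_cast hn4
  obtain ⟨hw, hsupp, -, hnn, hsum⟩ := Pool.Agent.Helper6.GP.lzw_all n k l x hk
  have hlog : 0 < Real.log n := Real.log_pos (by linarith)
  -- the size of the error
  have hpow : 40 * Real.log n * (n : ℝ) ^ δ ≤ ε * l := by
    have h1 : (n : ℝ) ^ (2 * δ) ≤ l := Nat.le_ceil _
    have h2 : (n : ℝ) ^ (2 * δ) = (n : ℝ) ^ δ * (n : ℝ) ^ δ := by
      rw [← Real.rpow_add hn0]
      congr 1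
      ring
    have h3 : (0 : ℝ) < (n : ℝ) ^ δ := by positivity
    calc 40 * Real.log n * (n : ℝ) ^ δ ≤ ε * (n : ℝ) ^ δ * (n : ℝ) ^ δ :=
          mul_le_mul_of_nonneg_right hn2 h3.le
      _ = ε * (n : ℝ) ^ (2 * δ) := by rw [h2]; ring
      _ ≤ ε * l := mul_le_mul_of_nonneg_left h1 hε.le
  have hδ1 : (1 : ℝ) ≤ (n : ℝ) ^ δ := Real.one_le_rpow hn1' hδ.le
  have herr : (1 - ε / 2) ^ l ≤ Real.exp (-(20 * Real.log n * (n : ℝ) ^ δ)) := by
    have h1 : 1 - ε / 2 ≤ Real.exp (-(ε / 2)) := by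
      have := Real.add_one_le_exp (-(ε / 2))
      linarith
    calc (1 - ε / 2) ^ l ≤ (Real.exp (-(ε / 2))) ^ l :=
          pow_le_pow_left₀ (by linarith) h1 l
      _ = Real.exp (-(ε * l / 2)) := by
          rw [← Real.exp_nat_mul]
          congr 1
          ring
      _ ≤ _ := by
          rw [Real.exp_le_exp]
          linarith
  -- the error for `r` points
  have herr2 : ∀ r : ℕ, (r : ℝ) ≤ 20 * (n : ℝ) ^ δ → r ≤ n →
      (1 - ε / 2) ^ l ≤ 1 / (n.descFactorial r : ℝ) := by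
    intro r hr hrn
    have h1 : (0 : ℝ) < n.descFactorial r := by
      exact_mod_cast Nat.descFactorial_pos.mpr hrn
    rw [le_div_iff₀ h1]
    have h2 : (n.descFactorial r : ℝ) ≤ (n : ℝ) ^ r := by
      exact_mod_cast Nat.descFactorial_le_pow n r
    have h3 : (n : ℝ) ^ r = Real.exp (r * Real.log n) := by
      rw [Real.exp_nat_mul, Real.exp_log hn0]
    have h4 : (0 : ℝ) ≤ (1 - ε / 2) ^ l := pow_nonneg (by linarith) _
    calc (1 - ε / 2) ^ l * (n.descFactorial r : ℝ)
        ≤ Real.exp (-(20 * Real.log n * (n : ℝ) ^ δ)) * Real.exp (r * Real.log n) := by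
          rw [← h3]
          exact mul_le_mul herr h2 h1.le (Real.exp_pos _).le
      _ ≤ 1 := by
          rw [← Real.exp_add, Real.exp_le_one_iff]
          have := mul_le_mul_of_nonneg_right hr hlog.le
          linarith
  have hsqrt : Nat.sqrt n + 2 ≤ n := by
    have h1 : Nat.sqrt n * Nat.sqrt n ≤ n := Nat.sqrt_le n
    have h2 : 2 ≤ Nat.sqrt n := by
      rw [Nat.le_sqrt]
      omega
    nlinarith
  refine ⟨⟨hnn, hsum, lazy_symm x l, fun g hg => hsupp g hg⟩, ?_, ?_, ?_, ?_⟩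
  · intro r hr a b
    have hra : (r : ℝ) ≤ (n : ℝ) ^ α := hr.trans hn1
    have hrn : r ≤ n := by
      have h1 : (n : ℝ) ^ α ≤ (n : ℝ) ^ (1 : ℝ) := Real.rpow_le_rpow_of_exponent_le hn1' hα1.le
      rw [Real.rpow_one] at h1
      exact_mod_cast hra.trans h1
    have h1 := Pool.Agent.Helper61.GP.thm n k r l x ε hk hrn hε hε1 (hgap r hra) a b
    have h2 := herr2 r hr hrn
    have h3 := (abs_le.1 h1).2
    unfold prT
    have h4 : 2 / (n.descFactorial r : ℝ) = 1 / (n.descFactorial r : ℝ) +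
        1 / (n.descFactorial r : ℝ) := by ring
    rw [h4]
    linarith
  · intro a b
    have hra : ((1 : ℕ) : ℝ) ≤ (n : ℝ) ^ α := by
      push_cast
      exact Real.one_le_rpow hn1' (by linarith)
    have h1 := Pool.Agent.Helper61.GP.thm n k 1 l x ε hk (by omega) hε hε1 (hgap 1 hra)
      ⟨fun _ => a, fun _ _ _ => Subsingleton.elim _ _⟩
      ⟨fun _ => b, fun _ _ _ => Subsingleton.elim _ _⟩
    have h3 := (abs_le.1 h1).1
    have h4 : ∑ w, (if w a = b then lazyLaw x l w else 0) =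
        ∑ g ∈ Finset.univ.filter (fun g : Perm (Fin n) => ∀ i : Fin 1,
          g ((⟨fun _ => a, fun _ _ _ => Subsingleton.elim _ _⟩ : Fin 1 ↪ Fin n) i) =
          (⟨fun _ => b, fun _ _ _ => Subsingleton.elim _ _⟩ : Fin 1 ↪ Fin n) i),
          lazyLaw x l g := by
      rw [Finset.sum_filter]
      refine Finset.sum_congr rfl fun g _ => ?_
      congr 1
      rw [eq_iff_iff]
      exact ⟨fun h _ => h, fun h => h 0⟩
    rw [h4]
    have h5 : (1 - ε / 2) ^ l ≤ 1 / (2 * (n : ℝ)) := by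
      refine herr.trans ?_
      have h6 : Real.exp (-(20 * Real.log n * (n : ℝ) ^ δ)) ≤ Real.exp (-(2 * Real.log n)) := by
        rw [Real.exp_le_exp]
        nlinarith
      refine h6.trans ?_
      rw [Real.exp_neg, two_mul, Real.exp_add, Real.exp_log hn0, ← one_div]
      apply one_div_le_one_div_of_le (by positivity)
      nlinarith
    rw [Nat.descFactorial_one] at h3
    have h6 : 1 / (n : ℝ) = 1 / (2 * (n : ℝ)) + 1 / (2 * (n : ℝ)) := by
      field_simp
      norm_num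
    linarith
  · intro D ρ hρ htriv hfix
    have hra : ((Nat.sqrt n : ℕ) : ℝ) ≤ (n : ℝ) ^ α := by
      have h1 : ((Nat.sqrt n : ℕ) : ℝ) ≤ Real.sqrt n := Real.nat_sqrt_le_real_sqrt
      refine h1.trans ?_
      rw [Real.sqrt_eq_rpow]
      exact Real.rpow_le_rpow_of_exponent_le hn1' hα.le
    have hSP := tupW_isSP (by omega : 0 < k) x
    have hT := wop_isHermitian ρ hρ.unit hSP
    have hT2 := wop_add_one ρ hρ.unit hSP
    have hg := Pool.Agent.Helper56.GP.TGR.thm n k (Nat.sqrt n) D x ε hk hsqrt (hgap _ hra) ρ hρ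
      htriv hfix
    have h1 := lazy_pow_le hT ε hT2 hg l
    rw [hw D ρ hρ.unit]
    have h2 : (1 - ε / 2) ^ l ≤ 1 / 2 := by
      refine herr.trans ?_
      have h6 : Real.exp (-(20 * Real.log n * (n : ℝ) ^ δ)) ≤ Real.exp (-(Real.log n)) := by
        rw [Real.exp_le_exp]
        nlinarith
      refine h6.trans ?_
      rw [Real.exp_neg, Real.exp_log hn0, ← one_div]
      apply one_div_le_one_div_of_le (by norm_num)
      linarith
    have h3 : (1 / 2 : ℝ) • (1 : Matrix (Fin D) (Fin D) ℂ) -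
        ((1 / 2 : ℝ) • ((1 : Matrix (Fin D) (Fin D) ℂ) + wop ρ (tupW x))) ^ l =
        (1 / 2 - (1 - ε / 2) ^ l) • (1 : Matrix (Fin D) (Fin D) ℂ) +
        (((1 - ε / 2) ^ l) • (1 : Matrix (Fin D) (Fin D) ℂ) -
      ((1 / 2 : ℝ) • ((1 : Matrix (Fin D) (Fin D) ℂ) + wop ρ (tupW x))) ^ l) := by
      rw [sub_smul]
      abel
    rw [h3]
    exact (PosSemidef.one.smul (by linarith)).add h1
  · intro ν θ hν w hw'
    exact near hk x ν θ hν l w hw'

end Pool.Agent.Helper5.NX
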